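import Pool.Agent.Q88.Resid.Nec

/-!
Characterisation of the W*-algebras whose unitaries are residual in the weak* unit ball:
a von Neumann algebra `M` on an arbitrary complex Hilbert space has property (R) if and only if it
is σ-finite (countably decomposable) and has no nonzero finite-dimensional direct summand.
-/

namespace Pool.Agent.Results.MP_de1b00_an.ResidualUnitaries

open Q88.Resid

theorem result {H : Type*} [NormedAddCommGroup H] [InnerProductSpace ℂ H] [CompleteSpace H]
    (M : VonNeumannAlgebra H) :
    PropR M ↔ SigmaFinite M ∧ ¬ HasFinDimSummand M :=
  ⟨of_propR, fun h => propR_of h.1 h.2⟩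

end Pool.Agent.Results.MP_de1b00_an.ResidualUnitaries
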